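import Pool.Agent.Helper864_WL.Rank
import Pool.Agent.W332.SL6.Main

/-!
# Half of the `Σ`-Leopoldt conjecture (statements; project SR of helper1)

THEOREM. Let `F` be totally real, `K/F` totally complex quadratic, `p` any prime, `S` any CM type of `K` with
values in `ℂ_p`, `H/K` a finite Galois extension and `χ` any character of `Gal(H/K)`. Then the kernel of
`log_(S,p)` on the `χ`-part of `ℂ_p ⊗ 𝓞_H^×` has at most half the dimension of the `χ`-part.

Proof. Let `l = dim X`, `X` the `χ`-part. `X` has a basis `b_j` with algebraic coordinates. The archimedean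
logarithms `Λ_σ(x) = log |θ σ(x)|`, `σ` over `S`, separate the points of `X` (complex conjugation maps `S` to
its complement, Dirichlet): choose `l` of them with `(Λ_(σ_i)(b_j))` invertible. Let
`M = (log_p σ_i(b_j))`. If `c M e = 0` for vectors `c`, `e` with algebraic coordinates, then
`∑ c_i e_j σ_i(b_j) = 0` (Brumer), so `c Λ e = 0`. So all zero blocks of `M` (after changes of basis
over the algebraic numbers) are zero blocks of an invertible matrix, `n₁ + n₂ ≤ l`. The theorem of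
Waldschmidt gives `rank M ≥ l / 2`.
-/

set_option autoImplicit false

namespace Pool.Agent.L7h1.SR

open NumberField TensorProduct Pool.Agent.W289.SL Module
open Pool.Agent.Helper864WL
open Pool.Agent.W254.PA (LgP)

/-- WAL: the theorem of Waldschmidt on the rank of matrices of `p`-adic logarithms with algebraic
coefficients, for matrices that may have zero blocks over the algebraic numbers, of bounded size.
PROOF: `Pool.Agent.Helper864WL.rank_K` and `rank_Q` (RankK.lean, RankQ.lean), with the following change in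
`rank_K`: there all entries are independent, hence `G0 = 0`. Here: `F` is the annihilator of `N` over the
number field `K`, let `n₁ = m - dim_K F ≥ dim N ≥ 1` and let `c_1, ..., c_(n₁)` be a basis of the annihilator
of `F` in `K^m`; the computation with `comb_twoPi` shows `∑ c i * kk K s j * a i j = 0` for every `c`
in the annihilator of `F` and every `s ∈ G0`; so `kk K s`, `s ∈ G0`, lie in a subspace `B` of `K^l` with
`l n₁ + m dim B ≤ m l`, and `kk` is injective and `ℚ`-linear, so `finrank ℤ G0 ≤ dg K * dim B`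
(as for `Rm`, see `finrank_Rm_ge`, `finrank_int_le_rat`).  With `D = dg K`, `σ = m s`, `κ + 1 = D (m + l) s`,
the inequality `(finrank Rm + (l D - finrank G0)) σ ≤ finrank N * κ` of `partR` and
`finrank Rm ≥ D n₁`, `m (l D - finrank G0) ≥ l D n₁` give
`D n₁ (m + l) s ≤ n₁ κ`, a contradiction. -/
def S_WAL : Prop := ∀ (p : ℕ) [Fact p.Prime] (m l r : ℕ) (X : Fin m → Fin r → ℂ_[p])
  (Y : Fin r → Fin l → ℂ_[p]) (a : Fin m → Fin l → ℂ_[p]),
  (∀ i j, a i j ∈ Submodule.span (algebraicClosure ℚ ℂ_[p])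
    ((LgP p (𝕂 := ℂ_[p]) : Submodule ℚ ℂ_[p]) : Set ℂ_[p])) →
  (∀ i j, a i j = ∑ ρ, X i ρ * Y ρ j) →
  (∀ (n₁ n₂ : ℕ) (c : Fin n₁ → Fin m → algebraicClosure ℚ ℂ_[p])
    (e : Fin n₂ → Fin l → algebraicClosure ℚ ℂ_[p]), 0 < n₁ →
    LinearIndependent (algebraicClosure ℚ ℂ_[p]) c → LinearIndependent (algebraicClosure ℚ ℂ_[p]) e →
    (∀ k k', ∑ i, ∑ j, (c k i : ℂ_[p]) * (e k' j : ℂ_[p]) * a i j = 0) →
    l * n₁ + m * n₂ ≤ m * l) →
  m * l ≤ r * (m + l)

/-- The `χ`-part of `ℂ_p ⊗ 𝓞_H^×`. -/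
def chiPart (p : ℕ) [Fact p.Prime] (K H : Type) [Field K] [Field H] [NumberField H] [Algebra K H]
    (χ : (H ≃ₐ[K] H) →* ℂ_[p]ˣ) : Submodule ℂ_[p] (UM p H) where
  carrier := {x | ∀ τ : H ≃ₐ[K] H, actLin p (τ : H →+* H) x = ((χ τ : ℂ_[p]ˣ) : ℂ_[p]) • x}
  zero_mem' τ := by simp
  add_mem' {x y} hx hy τ := by rw [map_add, hx τ, hy τ, smul_add]
  smul_mem' c x hx τ := by rw [map_smul, hx τ, smul_comm]

/-- HAL: the abstract theorem. (Me.) -/
def S_HAL : Prop := ∀ (p : ℕ) [Fact p.Prime] (H : Type) [Field H] [NumberField H]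
  (X : Submodule ℂ_[p] (UU p H)),
  (∀ φ : ℂ_[p] →ₗ[algebraicClosure ℚ ℂ_[p]] ℂ_[p], ∀ x ∈ X, tw φ x ∈ X) →
  ∀ (I : Set (H →+* ℂ_[p])) (θ : ℂ_[p] ≃+* ℂ),
  (∀ x ∈ X, (∀ σ ∈ I, lamT θ ((θ : ℂ_[p] →+* ℂ).comp σ) x = 0) → x = 0) →
  ∀ (L : ℂ_[p] → ℂ_[p]) (hL : IsIwasawaLog p L) (W : Submodule ℂ_[p] (UU p H)), W ≤ X →
  (∀ x ∈ W, ∀ σ ∈ I, logT hL σ x = 0) →
  2 * finrank ℂ_[p] W ≤ finrank ℂ_[p] X

/-- CMT: the archimedean logarithms over a CM type separate the points of `ℂ_p ⊗ 𝓞_H^×`. PROOF: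
`Pool.Agent.W332.SL6.eq_zero_of_lam`; for `s : H → ℂ` let `σ = θ⁻¹ s`. If the restriction of `σ` to `K` is not
in `S`, use the conjugate of `s` (same absolute values, `lamT_congr`), whose restriction to `K` is the
composition of the one of `s` with the nontrivial automorphism `c` of `K` over `F` (CM field). -/
def S_CMT : Prop := ∀ (p : ℕ) [Fact p.Prime] (F K H : Type) [Field F] [NumberField F]
  [IsTotallyReal F] [Field K] [NumberField K] [IsTotallyComplex K] [Algebra F K],
  finrank F K = 2 → ∀ [Field H] [NumberField H] [Algebra K H] (S : Set (K →+* ℂ_[p])),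
  IsCMType p F K S → ∀ (θ : ℂ_[p] ≃+* ℂ) (x : UU p H),
  (∀ σ : H →+* ℂ_[p], σ.comp (algebraMap K H) ∈ S →
    lamT θ ((θ : ℂ_[p] →+* ℂ).comp σ) x = 0) → x = 0

open scoped Classical in
/-- DIM: the dimension of the `χ`-part is `r₂(K)` if `χ ≠ 1`, and `r₂(K) - 1` if `χ = 1`, for an abelian
extension `H/K` of a totally complex field. PROOF (counting): `ℂ_p ⊗ 𝓞_H^×` has dimension
`r₂(H) - 1 = [H : K] r₂(K) - 1` (Dirichlet) and is the direct sum of the `χ`-parts (simultaneous
eigenspaces of commuting automorphisms of finite order), of which there are `[H : K]`; each has dimension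
at most `r₂(K)`: for every complex place `w` of `K` choose an embedding `s_w : H → ℂ` over it; the
functionals `lamT θ s_w` separate the points of the `χ`-part, as all embeddings over `w` are
`s_w ∘ τ` up to conjugation (`lamT_act`, `lamT_congr`, `eq_zero_of_lam`). For `χ = 1` the dimension is at most
`r₂(K) - 1` by the product formula, or because the invariants are the image of `ℂ_p ⊗ 𝓞_K^×`. -/
def S_DIM : Prop := ∀ (p : ℕ) [Fact p.Prime] (K H : Type) [Field K] [NumberField K]
  [IsTotallyComplex K] [Field H] [NumberField H] [Algebra K H] [IsGalois K H],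
  (∀ σ τ : H ≃ₐ[K] H, σ * τ = τ * σ) → ∀ (χ : (H ≃ₐ[K] H) →* ℂ_[p]ˣ),
  2 * (finrank ℂ_[p] (chiPart p K H χ) + if χ = 1 then 1 else 0) = finrank ℚ K

end Pool.Agent.L7h1.SR
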