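import Pool.Agent.L7h1.SR.Stm
import Pool.Agent.Helper864_WL.RankQ
import Pool.Agent.W332.SL7.Main

/-!
# The rank of the logarithms over a set of embeddings on the `χ`-part

For a separating character `χ` of `Gal(H/K)`, `l` the dimension of the `χ`-part and a finite set `T` of
embeddings `K → ℂ_p`, the logarithms over `T` have rank `≥ t l / (t + l)` on the `χ`-part, `t = |T|`.
-/

set_option autoImplicit false
set_option linter.unusedSectionVars false

namespace Pool.Agent.L7h1.SR

open NumberField TensorProduct Pool.Agent.W289.SL Module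
open Pool.Agent.Helper864WL
open Pool.Agent.W332.SL6 (InChi chi_alg exists_ext exists_aut exists_big push push_push logLin_inChi
  logLin_push)
open Pool.Agent.W332.SL7 (Separates indep_conj)
open Pool.Agent.W254.PA (LgP exists_theta)

section alg

variable {p : ℕ} [Fact p.Prime] {Ω : Type} [Field Ω]

/-- a stable space of elements has a basis with algebraic coordinates -/
theorem exists_alg_basis1 (X : Submodule ℂ_[p] (UU p Ω)) [FiniteDimensional ℂ_[p] X]
    (hX : ∀ φ : ℂ_[p] →ₗ[algebraicClosure ℚ ℂ_[p]] ℂ_[p], ∀ x ∈ X, tw φ x ∈ X) :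
    ∃ B : Basis (Fin (finrank ℂ_[p] X)) ℂ_[p] X, ∀ k, HasCo 1 ((B k : X) : UU p Ω) := by
  let e : (Fin 1 → UU p Ω) ≃ₗ[ℂ_[p]] UU p Ω := LinearEquiv.funUnique (Fin 1) ℂ_[p] (UU p Ω)
  let X' : Submodule ℂ_[p] (Fin 1 → UU p Ω) := X.map (e.symm : UU p Ω →ₗ[ℂ_[p]] (Fin 1 → UU p Ω))
  let f : X ≃ₗ[ℂ_[p]] X' := e.symm.submoduleMap X
  have hfd : FiniteDimensional ℂ_[p] X' := f.finiteDimensional
  have hmem : ∀ y : Fin 1 → UU p Ω, y ∈ X' ↔ y 0 ∈ X := by
    intro y
    constructor
    · rintro ⟨x, hx, rfl⟩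
      exact hx
    · intro hy
      refine ⟨y 0, hy, ?_⟩
      funext i
      rw [Subsingleton.elim i 0]
      rfl
  obtain ⟨B, hB⟩ := exists_alg_basis X' (fun φ y hy => by
    rw [hmem] at hy ⊢
    exact hX φ _ hy)
  have hcard : finrank ℂ_[p] X' = finrank ℂ_[p] X := f.finrank_eq.symm
  refine ⟨(B.map f.symm).reindex (finCongr hcard), fun k => ?_⟩
  have h1 : (((B.map f.symm).reindex (finCongr hcard) k : X) : UU p Ω) =
      ((B ((finCongr hcard).symm k) : X') : Fin 1 → UU p Ω) 0 := by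
    rw [Basis.reindex_apply, Basis.map_apply]
    have h2 := f.apply_symm_apply (B ((finCongr hcard).symm k))
    have h3 : (f (f.symm (B ((finCongr hcard).symm k))) : Fin 1 → UU p Ω) 0 =
        ((f.symm (B ((finCongr hcard).symm k)) : X) : UU p Ω) := rfl
    rw [← h3, h2]
  rw [h1]
  exact hB _ 0

/-- factorization through a basis of the span -/
lemma factor {k V ι : Type} [Field k] [AddCommGroup V] [Module k V] [FiniteDimensional k V]
    (f : ι → (V →ₗ[k] k)) (S : Set ι) :
    ∃ (c : ι → Fin (finrank k (Submodule.span k (f '' S))) → k)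
      (F : Fin (finrank k (Submodule.span k (f '' S))) → (V →ₗ[k] k)),
      ∀ i ∈ S, f i = ∑ ρ, c i ρ • F ρ := by
  classical
  have hfree0 := Module.Free.of_divisionRing k (Submodule.span k (f '' S))
  have hfree : Module.Free k (Submodule.span k (f '' S)) := hfree0
  let F := Module.finBasis k (Submodule.span k (f '' S))
  refine ⟨fun i ρ => if h : i ∈ S then
    F.repr ⟨f i, Submodule.subset_span ⟨i, h, rfl⟩⟩ ρ else 0, fun ρ => (F ρ : _), fun i hi => ?_⟩
  have h1 := congrArg Subtype.val (F.sum_repr ⟨f i, Submodule.subset_span ⟨i, hi, rfl⟩⟩)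
  rw [Submodule.coe_sum] at h1
  simp only [dif_pos hi]
  exact h1.symm

end alg

variable {p : ℕ} [Fact p.Prime] {K H : Type} [Field K] [NumberField K] [Field H] [NumberField H]
  [Algebra K H] [FiniteDimensional K H] (χ : (H ≃ₐ[K] H) →* ℂ_[p]ˣ)

lemma tw_chiPart (φ : ℂ_[p] →ₗ[algebraicClosure ℚ ℂ_[p]] ℂ_[p]) (x : UM p H)
    (hx : x ∈ chiPart p K H χ) : (tw φ x : UM p H) ∈ chiPart p K H χ := by
  intro τ
  have h1 : actLin p (τ : H →+* H) (tw φ x : UM p H) = (tw φ (act p (τ : H →+* H) x) : UU p H) :=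
    (tw_act φ (τ : H →+* H) x).symm
  rw [h1]
  have h2 : act p (τ : H →+* H) x = ((χ τ : ℂ_[p]ˣ) : ℂ_[p]) • (x : UU p H) := hx τ
  rw [h2, tw_smul φ (chi_alg χ τ)]

instance : FiniteDimensional ℂ_[p] (UM p H) := by
  have : Module.Finite ℤ (Additive (𝓞 H)ˣ) := inferInstance
  exact Module.Finite.base_change ℤ ℂ_[p] (Additive (𝓞 H)ˣ)

/-- the chosen extension of an embedding -/
noncomputable def ext (H : Type) [Field H] [NumberField H] [Algebra K H] [FiniteDimensional K H]
    (τ : K →+* ℂ_[p]) : H →+* ℂ_[p] := (exists_ext (H := H) τ).choose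

lemma ext_spec (τ : K →+* ℂ_[p]) : (ext H τ).comp (algebraMap K H) = τ :=
  (exists_ext (H := H) τ).choose_spec

/-- the logarithm at an extension of `τ`, on the `χ`-part -/
noncomputable def row {L : ℂ_[p] → ℂ_[p]} (hL : IsIwasawaLog p L) (τ : K →+* ℂ_[p]) :
    chiPart p K H χ →ₗ[ℂ_[p]] ℂ_[p] :=
  (logLin hL (ext H τ)).comp (chiPart p K H χ).subtype

/-- **The rank of the logarithms over a set of embeddings.** -/
theorem sub (T : Finset (K →+* ℂ_[p])) (hsep : Separates p K H (T : Set (K →+* ℂ_[p])) χ)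
    {L : ℂ_[p] → ℂ_[p]} (hL : IsIwasawaLog p L) :
    T.card * finrank ℂ_[p] (chiPart p K H χ) ≤
      finrank ℂ_[p] (Submodule.span ℂ_[p] (row (H := H) χ hL '' (T : Set (K →+* ℂ_[p])))) *
        (T.card + finrank ℂ_[p] (chiPart p K H χ)) := by
  classical
  obtain ⟨θ⟩ := exists_theta p
  obtain ⟨M, iM, iN, iG, inc, hinc⟩ := exists_big p H
  choose τ hτ using fun b : K →+* ℂ_[p] => hinc (ext H b)
  obtain ⟨n, hn⟩ : ∃ n, n = finrank ℂ_[p] (chiPart p K H χ) := ⟨_, rfl⟩
  obtain ⟨B, hB⟩ : ∃ B : Basis (Fin n) ℂ_[p] (chiPart p K H χ),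
      ∀ k, HasCo 1 ((B k : chiPart p K H χ) : UM p H) := by
    subst hn
    exact exists_alg_basis1 (chiPart p K H χ) (tw_chiPart χ)
  rw [← hn]
  let b : Fin n → UM p H := fun k => ((B k : chiPart p K H χ) : UM p H)
  have hbli : LinearIndependent ℂ_[p] b :=
    B.linearIndependent.map' (chiPart p K H χ).subtype (Submodule.ker_subtype _)
  have hb : ∀ k, InChi χ (b k) := fun k => (B k).2
  -- independence of the conjugates
  have hind : LinearIndependent ℂ_[p] (fun q : T × Fin n => push (τ q.1) (b q.2)) := by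
    refine indep_conj χ θ hb hbli (fun t : T => τ t) fun t t' htt' => ?_
    obtain ⟨g, h, h', e1, e2, hne⟩ := hsep (ext H (t : K →+* ℂ_[p])) (ext H (t' : K →+* ℂ_[p]))
      (by rw [ext_spec]; exact t.2) (by rw [ext_spec]; exact t'.2)
      (by rw [ext_spec, ext_spec]; exact fun h => htt' (Subtype.ext h))
    obtain ⟨γ, hγ⟩ := exists_aut (K := ℚ) (H := M) ((g : ℂ_[p] →+* ℂ_[p]).comp inc) inc
      (RingHom.ext_rat _ _)
    have key : ∀ (c : K →+* ℂ_[p]) (k : H ≃ₐ[K] H), (g : ℂ_[p] →+* ℂ_[p]).comp (ext H c) =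
        (ext H c).comp (k : H →+* H) → (γ : M →+* M).comp (τ c) = (τ c).comp (k : H →+* H) := by
      intro c k hk
      ext y
      apply inc.injective
      have h1 := RingHom.congr_fun hγ (τ c y)
      have h2 := RingHom.congr_fun (hτ c) y
      have h3 := RingHom.congr_fun (hτ c) (k y)
      have h4 := RingHom.congr_fun hk y
      change inc (γ (τ c y)) = inc (τ c (k y))
      change g (inc (τ c y)) = inc (γ (τ c y)) at h1
      change inc (τ c y) = ext H c y at h2
      change inc (τ c (k y)) = ext H c (k y) at h3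
      change g (ext H c y) = ext H c (k y) at h4
      rw [← h1, h2, h4, h3]
    exact ⟨γ, h, h', key t h e1, key t' h' e2, hne⟩
  -- the matrix
  let e : Fin T.card ≃ T := T.equivFin.symm
  obtain ⟨cc, F, hF⟩ := factor (row (H := H) χ hL) (T : Set (K →+* ℂ_[p]))
  have hco : ∀ (t : K →+* ℂ_[p]) (k : Fin n), HasCo 1 (act p (τ t) (b k : UU p H)) :=
    fun t k => (hB k).act (τ t)
  have hlog : ∀ (t : K →+* ℂ_[p]) (k : Fin n), row (H := H) χ hL t (B k) =
      logT hL inc (act p (τ t) (b k : UU p H)) := by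
    intro t k
    rw [logT_act, hτ]
    rfl
  refine rank_Q T.card n _ (fun i ρ => cc (e i) ρ) (fun ρ k => F ρ (B k))
    (fun i k => row (H := H) χ hL (e i) (B k)) (fun i k => ?_) (fun i k => ?_) (fun c hc => ?_)
  · rw [hlog]
    exact logT_mem hL inc (hco _ k)
  · rw [hF _ (e i).2, LinearMap.sum_apply]
    rfl
  · let v : UU p M := ∑ i, ∑ k, (c i k : ℂ_[p]) • act p (τ (e i)) (b k : UU p H)
    have hv1 : HasCo 1 v := HasCo.sum _ fun i _ => HasCo.sum _ fun k _ =>
      (hco (e i) k).smul (Submodule.mem_one.2 ⟨c i k, rfl⟩)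
    have hv2 : logT hL inc v = 0 := by
      rw [← hc]
      simp only [v]
      rw [map_sum]
      refine Finset.sum_congr rfl fun i _ => ?_
      rw [map_sum]
      refine Finset.sum_congr rfl fun k _ => ?_
      rw [map_smul, smul_eq_mul, hlog]
    have hv3 := brumerΩ hL inc hv1 hv2
    rw [Fintype.linearIndependent_iff] at hind
    have h1 := hind (fun q => (c (e.symm q.1) q.2 : ℂ_[p])) (by
      rw [← hv3]
      simp only [v]
      rw [Fintype.sum_prod_type, ← Equiv.sum_comp e]
      refine Finset.sum_congr rfl fun i _ => ?_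
      refine Finset.sum_congr rfl fun k _ => ?_
      rw [e.symm_apply_apply]
      rfl)
    intro i k
    have h2 := h1 (e i, k)
    simp only [e.symm_apply_apply] at h2
    exact Subtype.ext h2

/-- the kernel of `log_{S,p}` on the `χ`-part -/
def kerPart {L : ℂ_[p] → ℂ_[p]} (hL : IsIwasawaLog p L) (S : Set (K →+* ℂ_[p])) :
    Submodule ℂ_[p] (UM p H) where
  carrier := {x | (∀ τ : H ≃ₐ[K] H, actLin p (τ : H →+* H) x = ((χ τ : ℂ_[p]ˣ) : ℂ_[p]) • x) ∧
    ∀ σ : H →+* ℂ_[p], σ.comp (algebraMap K H) ∈ S → logLin hL σ x = 0}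
  zero_mem' := ⟨fun τ => by simp, fun σ _ => map_zero _⟩
  add_mem' {x y} hx hy := ⟨fun τ => by rw [map_add, hx.1 τ, hy.1 τ, smul_add],
    fun σ hσ => by rw [map_add, hx.2 σ hσ, hy.2 σ hσ, add_zero]⟩
  smul_mem' c x hx := ⟨fun τ => by rw [map_smul, hx.1 τ, smul_comm],
    fun σ hσ => by rw [map_smul, hx.2 σ hσ, smul_zero]⟩

/-- dimension of the kernel + rank of the logarithms = dimension of the `χ`-part -/
theorem ker_add_rank [IsGalois K H] {L : ℂ_[p] → ℂ_[p]} (hL : IsIwasawaLog p L)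
    (S : Set (K →+* ℂ_[p])) :
    finrank ℂ_[p] (kerPart (H := H) χ hL S) +
      finrank ℂ_[p] (Submodule.span ℂ_[p] (row (H := H) χ hL '' S)) =
      finrank ℂ_[p] (chiPart p K H χ) := by
  classical
  set R : Submodule ℂ_[p] (chiPart p K H χ →ₗ[ℂ_[p]] ℂ_[p]) :=
    Submodule.span ℂ_[p] (row (H := H) χ hL '' S) with hR
  have h1 : (kerPart (H := H) χ hL S).comap (chiPart p K H χ).subtype = R.dualCoannihilator := by
    ext x
    rw [Submodule.mem_comap, Submodule.mem_dualCoannihilator]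
    constructor
    · intro hx φ hφ
      refine Submodule.span_induction (p := fun φ _ => φ x = 0) ?_ rfl ?_ ?_ hφ
      · rintro _ ⟨τ, hτ, rfl⟩
        exact hx.2 _ (by rw [ext_spec]; exact hτ)
      · intro φ ψ _ _ h1 h2
        rw [LinearMap.add_apply, h1, h2, add_zero]
      · intro c φ _ h1
        rw [LinearMap.smul_apply, h1, smul_zero]
    · intro hx
      refine ⟨x.2, fun σ hσ => ?_⟩
      obtain ⟨g, hg⟩ := exists_aut (K := K) (H := H) σ (ext H (σ.comp (algebraMap K H)))
        (ext_spec _).symm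
      have h2 := hx (row (H := H) χ hL (σ.comp (algebraMap K H)))
        (Submodule.subset_span ⟨_, hσ, rfl⟩)
      have h3 : logLin hL (ext H (σ.comp (algebraMap K H))) (x : UM p H) = 0 := h2
      rw [hg]
      have h4 := logLin_inChi hL (χ := χ) (x := (x : UM p H)) x.2
        (ext H (σ.comp (algebraMap K H))) g
      change logLin hL _ (x : UM p H) = 0
      rw [h4, h3, mul_zero]
  have h2 : finrank ℂ_[p] (kerPart (H := H) χ hL S) = finrank ℂ_[p] R.dualCoannihilator := by
    rw [← h1]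
    have h3 : ((kerPart (H := H) χ hL S).comap (chiPart p K H χ).subtype).map
        (chiPart p K H χ).subtype = kerPart (H := H) χ hL S := by
      rw [Submodule.map_comap_subtype]
      exact inf_eq_right.2 fun x hx => hx.1
    conv_lhs => rw [← h3]
    exact (LinearEquiv.finrank_eq (Submodule.equivMapOfInjective _
      (Submodule.injective_subtype _) _)).symm
  rw [h2, add_comm]
  exact Subspace.finrank_add_finrank_dualCoannihilator_eq R

end Pool.Agent.L7h1.SR
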